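import Mathlib
import Pool.Agent.H9Z.Cover.Main

set_option autoImplicit false

namespace Pool.Agent.Results.MP_5f370d_co.AFiveHomothets

/-- No plane convex body (compact convex set with nonempty interior) is covered by five homothetic
copies `x i + r i • K` of itself with ratios `0 < r i < 1/2`. -/
theorem result (K : Set (EuclideanSpace ℝ (Fin 2))) (hK : IsCompact K) (hc : Convex ℝ K)
    (hi : (interior K).Nonempty) (x : Fin 5 → EuclideanSpace ℝ (Fin 2)) (r : Fin 5 → ℝ)
    (hr : ∀ i, 0 < r i ∧ r i < 1 / 2) :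
    ¬ K ⊆ ⋃ i, {y | ∃ k ∈ K, y = x i + r i • k} := by
  intro h
  refine Pool.Agent.H9Z.Cover.not_cover K hK hc hi x r hr (h.trans ?_)
  refine Set.iUnion_mono fun i => ?_
  rintro y ⟨k, hk, rfl⟩
  exact ⟨k, hk, rfl⟩

end Pool.Agent.Results.MP_5f370d_co.AFiveHomothets
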